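import Mathlib
import Pool.Agent.Helper35.AG.Ent
import Pool.Agent.Helper35.AG.Info
import Pool.Agent.Helper35.AG.Lift

/-!
# Component growth: the finite scale inequality
-/

set_option autoImplicit false
open MeasureTheory Filter Topology Helper35.AG
open scoped ENNReal

namespace Helper75.CG

/-- the density on pairs -/
noncomputable def G (g : Tor → ℝ) (p : Tor × Tor) : ℝ≥0∞ := ENNReal.ofReal (g (p.1 + p.2))

/-- mass of the conditional law -/
noncomputable def M (μ : Measure Tor) (g : Tor → ℝ) (x : Tor) : ℝ≥0∞ := ∫⁻ y, G g (y, x) ∂μ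

/-- conditional law of the first variable -/
noncomputable def cnd (μ : Measure Tor) (g : Tor → ℝ) (x : Tor) : Measure Tor :=
  if M μ g x = 0 then μ else (M μ g x)⁻¹ • μ.withDensity fun y => G g (y, x)

set_option linter.unusedVariables false
set_option linter.unusedSectionVars false

variable {μ ν : Measure Tor} [IsProbabilityMeasure μ] [IsProbabilityMeasure ν] {g : Tor → ℝ}
  {C : ℝ}

theorem measurable_G (hg : Measurable g) : Measurable (G g) := by
  unfold G
  exact (hg.comp (measurable_fst.add measurable_snd)).ennreal_ofReal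

theorem measurable_G_left (hg : Measurable g) (x : Tor) : Measurable fun y => G g (y, x) :=
  (measurable_G hg).comp (measurable_id.prodMk measurable_const)

theorem measurable_M (hg : Measurable g) : Measurable (M μ g) := by
  unfold M
  exact (measurable_G hg).lintegral_prod_left'

theorem M_le (h1 : ∀ x, g x ≤ C) (x : Tor) : M μ g x ≤ ENNReal.ofReal C := by
  unfold M
  calc ∫⁻ y, G g (y, x) ∂μ ≤ ∫⁻ _y, ENNReal.ofReal C ∂μ :=
        lintegral_mono fun y => ENNReal.ofReal_le_ofReal (h1 _)
    _ = ENNReal.ofReal C := by simp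

theorem M_ne_top (h1 : ∀ x, g x ≤ C) (x : Tor) : M μ g x ≠ ⊤ :=
  ((M_le h1 x).trans_lt ENNReal.ofReal_lt_top).ne

theorem M_mul_cnd (h1 : ∀ x, g x ≤ C) (x : Tor) (A : Set Tor) :
    M μ g x * cnd μ g x A = (μ.withDensity fun y => G g (y, x)) A := by
  unfold cnd
  split_ifs with h
  · rw [h, zero_mul]
    symm
    have h2 : (μ.withDensity fun y => G g (y, x)) Set.univ = 0 := by
      rw [withDensity_apply _ MeasurableSet.univ, Measure.restrict_univ]
      exact h
    exact le_antisymm ((measure_mono (Set.subset_univ A)).trans h2.le) bot_le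
  · rw [Measure.smul_apply, smul_eq_mul, ← mul_assoc, ENNReal.mul_inv_cancel h (M_ne_top h1 x),
      one_mul]

theorem cnd_prob (hg : Measurable g) (h1 : ∀ x, g x ≤ C) (x : Tor) :
    IsProbabilityMeasure (cnd μ g x) := by
  unfold cnd
  split_ifs with h
  · infer_instance
  · refine ⟨?_⟩
    rw [Measure.smul_apply, withDensity_apply _ MeasurableSet.univ, Measure.restrict_univ,
      smul_eq_mul]
    exact ENNReal.inv_mul_cancel h (M_ne_top h1 x)

theorem M_mul_cnd_le (hg : Measurable g) (h1 : ∀ x, g x ≤ C) (x : Tor) {A : Set Tor}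
    (hA : MeasurableSet A) : M μ g x * cnd μ g x A ≤ ENNReal.ofReal C * μ A := by
  rw [M_mul_cnd h1, withDensity_apply _ hA]
  calc ∫⁻ y in A, G g (y, x) ∂μ ≤ ∫⁻ _y in A, ENNReal.ofReal C ∂μ :=
        lintegral_mono fun y => ENNReal.ofReal_le_ofReal (h1 _)
    _ = ENNReal.ofReal C * μ A := by simp

theorem M_mul_cnd_sect (hg : Measurable g) (h1 : ∀ x, g x ≤ C) {B : Set (Tor × Tor)}
    (hB : MeasurableSet B) (x : Tor) :
    M μ g x * cnd μ g x {y | (y, x) ∈ B} = ∫⁻ y, B.indicator (G g) (y, x) ∂μ := by
  have hs : MeasurableSet {y | (y, x) ∈ B} := measurable_prodMk_right hB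
  rw [M_mul_cnd h1, withDensity_apply _ hs, ← lintegral_indicator hs]
  rfl

theorem measurable_cnd (hg : Measurable g) (h1 : ∀ x, g x ≤ C) {B : Set (Tor × Tor)}
    (hB : MeasurableSet B) : Measurable fun x => cnd μ g x {y | (y, x) ∈ B} := by
  classical
  have e : (fun x => cnd μ g x {y | (y, x) ∈ B}) = fun x => if M μ g x = 0 then
      μ {y | (y, x) ∈ B} else (M μ g x)⁻¹ * ∫⁻ y, B.indicator (G g) (y, x) ∂μ := by
    funext x
    split_ifs with h
    · unfold cnd
      rw [if_pos h]
    · rw [← M_mul_cnd_sect hg h1 hB, ← mul_assoc, ENNReal.inv_mul_cancel h (M_ne_top h1 x), one_mul]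
  rw [e]
  refine Measurable.ite (measurable_M hg (measurableSet_singleton 0)) ?_ ?_
  · exact measurable_measure_prodMk_right hB
  · exact (measurable_M hg).inv.mul (((measurable_G hg).indicator hB).lintegral_prod_left')

/-- law of the second variable -/
noncomputable def nu' (μ ν : Measure Tor) (g : Tor → ℝ) : Measure Tor := ν.withDensity (M μ g)

/-- joint law -/
noncomputable def jt (μ ν : Measure Tor) (g : Tor → ℝ) : Measure (Tor × Tor) :=
  (μ.prod ν).withDensity (G g)

theorem lintegral_cnd (hg : Measurable g) (h1 : ∀ x, g x ≤ C) {B : Set (Tor × Tor)}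
    (hB : MeasurableSet B) : ∫⁻ x, cnd μ g x {y | (y, x) ∈ B} ∂(nu' μ ν g) = jt μ ν g B := by
  unfold nu' jt
  rw [lintegral_withDensity_eq_lintegral_mul _ (measurable_M hg) (measurable_cnd hg h1 hB),
    withDensity_apply _ hB, ← lintegral_indicator hB, lintegral_prod_symm' _
    ((measurable_G hg).indicator hB)]
  refine lintegral_congr fun x => ?_
  exact M_mul_cnd_sect hg h1 hB x

theorem nu'_univ (hg : Measurable g) : nu' μ ν g Set.univ = jt μ ν g Set.univ := by
  unfold nu' jt
  rw [withDensity_apply _ MeasurableSet.univ, withDensity_apply _ MeasurableSet.univ,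
    Measure.restrict_univ, Measure.restrict_univ, lintegral_prod_symm' _ (measurable_G hg)]
  rfl

theorem jt_univ (hm : (jt μ ν g).map Prod.fst = μ) : jt μ ν g Set.univ = 1 := by
  have := congrArg (fun ρ : Measure Tor => ρ Set.univ) hm
  simpa [Measure.map_apply measurable_fst MeasurableSet.univ] using this

theorem nu'_prob (hg : Measurable g) (hm : (jt μ ν g).map Prod.fst = μ) :
    IsProbabilityMeasure (nu' μ ν g) := ⟨by rw [nu'_univ hg, jt_univ hm]⟩

theorem jt_prob (hm : (jt μ ν g).map Prod.fst = μ) : IsProbabilityMeasure (jt μ ν g) :=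
  ⟨jt_univ hm⟩

theorem integral_cnd (hg : Measurable g) (h1 : ∀ x, g x ≤ C) {B : Set (Tor × Tor)}
    (hB : MeasurableSet B) :
    ∫ x, (cnd μ g x).real {y | (y, x) ∈ B} ∂(nu' μ ν g) = (jt μ ν g).real B := by
  rw [integral_eq_lintegral_of_nonneg_ae (Eventually.of_forall fun x => measureReal_nonneg)
    ((measurable_cnd hg h1 hB).ennreal_toReal).aestronglyMeasurable, measureReal_def,
    ← lintegral_cnd hg h1 hB]
  congr 1
  refine lintegral_congr fun x => ?_
  have := cnd_prob (μ := μ) hg h1 x
  rw [measureReal_def, ENNReal.ofReal_toReal (measure_ne_top _ _)]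

/-- sum law -/
theorem jt_sum (hg : Measurable g) {A : Set Tor} (hA : MeasurableSet A) :
    jt μ ν g {p | p.1 + p.2 ∈ A} =
      ((conv μ ν).withDensity fun x => ENNReal.ofReal (g x)) A := by
  have hm : Measurable fun p : Tor × Tor => p.1 + p.2 := by fun_prop
  have e : {p : Tor × Tor | p.1 + p.2 ∈ A} = (fun p : Tor × Tor => p.1 + p.2) ⁻¹' A := rfl
  unfold jt conv
  rw [e, withDensity_apply _ hA, withDensity_apply _ (hm hA), setLIntegral_map hA
    hg.ennreal_ofReal hm]
  rfl

/-- entropy given the second variable -/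
theorem ent_cnd (hg : Measurable g) (hC : 1 ≤ C) (h1 : ∀ x, g x ≤ C)
    (hm : (jt μ ν g).map Prod.fst = μ) (K : ℕ) :
    ent μ K - Real.log C ≤ ∫ x, ent (cnd μ g x) K ∂(nu' μ ν g) := by
  have hC0 : 0 < C := by linarith
  have hp := fun x => cnd_prob (μ := μ) hg h1 x
  have hB : ∀ j : ℕ, MeasurableSet {p : Tor × Tor | idx K p.1 = j} := fun j =>
    ((measurable_idx K).comp measurable_fst) (measurableSet_singleton j)
  have hr : ∀ j : ℕ, Measurable fun x => (cnd μ g x).real {y | idx K y = j} := fun j =>
    (measurable_cnd hg h1 (hB j)).ennreal_toReal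
  have hr1 : ∀ (j : ℕ) (x : Tor), (cnd μ g x).real {y | idx K y = j} ≤ 1 := fun j x =>
    measureReal_le_one
  have hr0 : ∀ (j : ℕ) (x : Tor), 0 ≤ (cnd μ g x).real {y | idx K y = j} := fun j x =>
    measureReal_nonneg
  have hM : Measurable fun x => (M μ g x).toReal := (measurable_M hg).ennreal_toReal
  have hM0 : ∀ x, 0 ≤ (M μ g x).toReal := fun x => ENNReal.toReal_nonneg
  have hM1 : ∀ x, (M μ g x).toReal ≤ C := fun x => by
    have := ENNReal.toReal_mono ENNReal.ofReal_ne_top (M_le (μ := μ) h1 x)
    rwa [ENNReal.toReal_ofReal hC0.le] at this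
  have hmr : ∀ (j : ℕ) (x : Tor), (M μ g x).toReal * (cnd μ g x).real {y | idx K y = j} ≤
      C * μ.real {y | idx K y = j} := by
    intro j x
    have h := ENNReal.toReal_mono (by finiteness) (M_mul_cnd_le (μ := μ) hg h1 x
      (measurableSet_idx K j))
    rw [ENNReal.toReal_mul, ENNReal.toReal_mul, ENNReal.toReal_ofReal hC0.le] at h
    exact h
  -- integrals over `nu'`
  have hint : ∀ f : Tor → ℝ, ∫ x, f x ∂(nu' μ ν g) = ∫ x, (M μ g x).toReal * f x ∂ν := by
    intro f
    unfold nu'
    rw [integral_withDensity_eq_integral_toReal_smul (measurable_M hg)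
      (Eventually.of_forall fun x => (M_le h1 x).trans_lt ENNReal.ofReal_lt_top)]
    rfl
  rw [hint]
  have hμj : ∀ j : ℕ, ∫ x, (M μ g x).toReal * (cnd μ g x).real {y | idx K y = j} ∂ν =
      μ.real {y | idx K y = j} := by
    intro j
    rw [← hint]
    refine (integral_cnd (μ := μ) (ν := ν) hg h1 (hB j)).trans ?_
    have h2 := congrArg (fun ρ : Measure Tor => ρ.real {y | idx K y = j}) hm
    beta_reduce at h2
    rw [map_measureReal_apply measurable_fst (measurableSet_idx K j)] at h2
    exact h2
  have hM1i : ∫ x, (M μ g x).toReal ∂ν = 1 := by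
    have h2 := hint fun _ => (1 : ℝ)
    have := nu'_prob (μ := μ) (ν := ν) hg hm
    rw [integral_const, probReal_univ, smul_eq_mul, mul_one] at h2
    simp only [mul_one] at h2
    exact h2.symm
  have iM : Integrable (fun x => (M μ g x).toReal) ν :=
    Integrable.of_bound hM.aestronglyMeasurable C (Eventually.of_forall fun x => by
      rw [Real.norm_eq_abs, abs_of_nonneg (hM0 x)]
      exact hM1 x)
  have iMr : ∀ j : ℕ, Integrable (fun x => (M μ g x).toReal *
      (cnd μ g x).real {y | idx K y = j}) ν := fun j =>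
    Integrable.of_bound (hM.mul (hr j)).aestronglyMeasurable C (Eventually.of_forall fun x => by
      rw [Real.norm_eq_abs, abs_of_nonneg (mul_nonneg (hM0 x) (hr0 j x))]
      calc (M μ g x).toReal * (cnd μ g x).real {y | idx K y = j} ≤ C * 1 :=
            mul_le_mul (hM1 x) (hr1 j x) (hr0 j x) hC0.le
        _ = C := mul_one C)
  -- pointwise inequality
  have key : ∀ x, ((M μ g x).toReal - 1 - (M μ g x).toReal * Real.log C) +
      ∑ j ∈ Finset.range (2 ^ K), (M μ g x).toReal * (cnd μ g x).real {y | idx K y = j} *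
        (-Real.log (μ.real {y | idx K y = j})) ≤ (M μ g x).toReal * ent (cnd μ g x) K := by
    intro x
    have := hp x
    rcases (hM0 x).eq_or_lt with h0 | h0
    · rw [← h0]
      simp
    · have hlog : (M μ g x).toReal - 1 ≤ (M μ g x).toReal * Real.log (M μ g x).toReal := by
        have h3 := Real.log_le_sub_one_of_pos (inv_pos.2 h0)
        rw [Real.log_inv] at h3
        have h4 := mul_le_mul_of_nonneg_left h3 h0.le
        rw [mul_sub, mul_inv_cancel₀ h0.ne', mul_one] at h4
        linarith
      have hterm : ∀ j ∈ Finset.range (2 ^ K), (cnd μ g x).real {y | idx K y = j} *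
          (Real.log (M μ g x).toReal - Real.log C - Real.log (μ.real {y | idx K y = j})) ≤
          Real.negMulLog ((cnd μ g x).real {y | idx K y = j}) := by
        intro j _
        rcases (hr0 j x).eq_or_lt with h5 | h5
        · rw [← h5]
          simp
        · have h6 := hmr j x
          have h7 : 0 < (M μ g x).toReal * (cnd μ g x).real {y | idx K y = j} := mul_pos h0 h5
          have h8 : 0 < μ.real {y | idx K y = j} := by
            by_contra h9
            have : μ.real {y | idx K y = j} = 0 := le_antisymm (not_lt.1 h9) measureReal_nonneg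
            rw [this, mul_zero] at h6
            linarith
          have h9 := Real.log_le_log h7 h6
          rw [Real.log_mul h0.ne' h5.ne', Real.log_mul hC0.ne' h8.ne'] at h9
          unfold Real.negMulLog
          rw [neg_mul, ← mul_neg]
          exact mul_le_mul_of_nonneg_left (by linarith) h5.le
      have hsum := Finset.sum_le_sum hterm
      have hone : ∑ j ∈ Finset.range (2 ^ K), (cnd μ g x).real {y | idx K y = j} = 1 := by
        rw [sum_cells]
      have h10 := mul_le_mul_of_nonneg_left hsum h0.le
      have e1 : ∀ j ∈ Finset.range (2 ^ K), (cnd μ g x).real {y | idx K y = j} *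
          (Real.log (M μ g x).toReal - Real.log C - Real.log (μ.real {y | idx K y = j})) =
          (Real.log (M μ g x).toReal - Real.log C) * (cnd μ g x).real {y | idx K y = j} +
          (cnd μ g x).real {y | idx K y = j} * (-Real.log (μ.real {y | idx K y = j})) := by
        intro j _
        ring
      have e2 : ∑ j ∈ Finset.range (2 ^ K), (M μ g x).toReal *
          (cnd μ g x).real {y | idx K y = j} * (-Real.log (μ.real {y | idx K y = j})) =
          (M μ g x).toReal * ∑ j ∈ Finset.range (2 ^ K),
          (cnd μ g x).real {y | idx K y = j} * (-Real.log (μ.real {y | idx K y = j})) := by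
        rw [Finset.mul_sum]
        exact Finset.sum_congr rfl fun j _ => by ring
      rw [Finset.sum_congr rfl e1, Finset.sum_add_distrib, ← Finset.mul_sum, hone, mul_one,
        mul_add, mul_sub] at h10
      rw [e2]
      unfold ent
      linarith
  have i0 : Integrable (fun x => (M μ g x).toReal - 1) ν := iM.sub (integrable_const 1)
  have i1 : Integrable (fun x => (M μ g x).toReal - 1 - (M μ g x).toReal * Real.log C) ν :=
    i0.sub (iM.mul_const _)
  have i2 : Integrable (fun x => ∑ j ∈ Finset.range (2 ^ K), (M μ g x).toReal *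
      (cnd μ g x).real {y | idx K y = j} * (-Real.log (μ.real {y | idx K y = j}))) ν :=
    integrable_finsetSum _ fun j _ => (iMr j).mul_const _
  have hL : Integrable (fun x => ((M μ g x).toReal - 1 - (M μ g x).toReal * Real.log C) +
      ∑ j ∈ Finset.range (2 ^ K), (M μ g x).toReal * (cnd μ g x).real {y | idx K y = j} *
        (-Real.log (μ.real {y | idx K y = j}))) ν := by
    exact i1.add i2
  have hentm : Measurable fun x => ent (cnd μ g x) K := by
    unfold ent
    exact Finset.measurable_sum _ fun j _ => Real.continuous_negMulLog.measurable.comp (hr j)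
  have hR : Integrable (fun x => (M μ g x).toReal * ent (cnd μ g x) K) ν := by
    refine Integrable.of_bound (hM.mul hentm).aestronglyMeasurable (C * 2 ^ K)
      (Eventually.of_forall fun x => ?_)
    have h0 : 0 ≤ ent (cnd μ g x) K := Finset.sum_nonneg fun j _ =>
      Real.negMulLog_nonneg (hr0 j x) (hr1 j x)
    have h2 : ent (cnd μ g x) K ≤ 2 ^ K := by
      unfold ent
      calc ∑ j ∈ Finset.range (2 ^ K), Real.negMulLog ((cnd μ g x).real {y | idx K y = j})
          ≤ ∑ _j ∈ Finset.range (2 ^ K), (1 : ℝ) := by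
            refine Finset.sum_le_sum fun j _ => ?_
            have := Real.negMulLog_le_one_sub_self (hr0 j x)
            linarith [hr0 j x]
        _ = 2 ^ K := by simp
    rw [Real.norm_eq_abs, abs_of_nonneg (mul_nonneg (hM0 x) h0)]
    exact mul_le_mul (hM1 x) h2 h0 hC0.le
  have hfin := integral_mono hL hR key
  refine le_trans (le_of_eq ?_) hfin
  rw [integral_add i1 i2, integral_sub i0 (iM.mul_const _), integral_sub iM
    (integrable_const 1), integral_mul_const, hM1i, integral_finsetSum _ fun j _ =>
    (iMr j).mul_const _]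
  have e2 : ∀ j ∈ Finset.range (2 ^ K), ∫ x, (M μ g x).toReal *
      (cnd μ g x).real {y | idx K y = j} * (-Real.log (μ.real {y | idx K y = j})) ∂ν =
      Real.negMulLog (μ.real {y | idx K y = j}) := by
    intro j _
    rw [integral_mul_const, hμj]
    unfold Real.negMulLog
    ring
  rw [Finset.sum_congr rfl e2]
  unfold ent
  simp
  ring

theorem nu'_le (h1 : ∀ x, g x ≤ C) : nu' μ ν g ≤ ENNReal.ofReal C • ν := by
  unfold nu'
  calc ν.withDensity (M μ g) ≤ ν.withDensity fun _ => ENNReal.ofReal C :=
        withDensity_mono (Eventually.of_forall fun x => M_le h1 x)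
    _ = ENNReal.ofReal C • ν := withDensity_const _

/-- **The finite scale inequality.** -/
theorem loc (C D : ℝ) (hC : 1 ≤ C) : ∃ h : ℝ, 0 < h ∧ ∀ (μ ν : Measure Tor)
    [IsProbabilityMeasure μ] [IsProbabilityMeasure ν] (g : Tor → ℝ), Measurable g →
    (∀ x, 0 ≤ g x) → (∀ x, g x ≤ C) →
    ((μ.prod ν).withDensity fun p => ENNReal.ofReal (g (p.1 + p.2))).map Prod.fst = μ →
    ∀ K : ℕ, ent ((conv μ ν).withDensity fun x => ENNReal.ofReal (g x)) K ≤ ent μ K + D →
    h ≤ (ν.prod ν).real {p | h ≤ ov μ K p.1 p.2} := by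
  have hC0 : 0 < C := by linarith
  obtain ⟨E, hE⟩ : ∃ E : ℝ, E = Real.exp (-2 * (D + Real.log C + Real.log 2)) / 4 := ⟨_, rfl⟩
  have hE0 : 0 < E := by rw [hE]; positivity
  obtain ⟨h, hh⟩ : ∃ h : ℝ, h = min (E / 4 * E / C) (E / 2 / C ^ 2) := ⟨_, rfl⟩
  have hh0 : 0 < h := by
    rw [hh]
    exact lt_min (by positivity) (by positivity)
  refine ⟨h, hh0, fun μ ν _ _ g hg g0 g1 hm K hK => ?_⟩
  have hm' : (jt μ ν g).map Prod.fst = μ := hm
  have hp := fun x => cnd_prob (μ := μ) hg g1 x
  have hprob := nu'_prob (μ := μ) (ν := ν) hg hm'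
  have hjp := jt_prob (μ := μ) (ν := ν) hm'
  have hB : ∀ i : ℕ, MeasurableSet {p : Tor × Tor | idx K (p.1 + p.2) = i} := fun i =>
    ((measurable_idx K).comp (measurable_fst.add measurable_snd)) (measurableSet_singleton i)
  set p : Tor → Fin (2 ^ K) → ℝ := fun x i => (cnd μ g x).real {y | idx K (y + x) = i} with hpdef
  have hpm : ∀ i, Measurable fun x => p x i := fun i =>
    (measurable_cnd (μ := μ) hg g1 (hB i)).ennreal_toReal
  have hp0 : ∀ x i, 0 ≤ p x i := fun x i => measureReal_nonneg
  have hp1 : ∀ x, ∑ i, p x i = 1 := fun x => by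
    have := hp x
    have h2 := sum_shift (cnd μ g x) K x
    rw [Finset.sum_range] at h2
    exact h2
  have hple : ∀ x i, p x i ≤ 1 := fun x i => by
    have := hp x
    exact measureReal_le_one
  have hlam : ∀ i : ℕ, ∫ x, (cnd μ g x).real {y | idx K (y + x) = i} ∂(nu' μ ν g) =
      ((conv μ ν).withDensity fun x => ENNReal.ofReal (g x)).real {x | idx K x = i} := by
    intro i
    refine (integral_cnd (μ := μ) (ν := ν) hg g1 (hB i)).trans ?_
    rw [measureReal_def, measureReal_def]
    congr 1
    exact jt_sum hg (measurableSet_idx K i)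
  have hinfo := info (nu' μ ν g) p hpm hp0 hp1 (D + Real.log C + Real.log 2) (by
    have e1 : ∑ i, Real.negMulLog (∫ y, p y i ∂(nu' μ ν g)) =
        ent ((conv μ ν).withDensity fun x => ENNReal.ofReal (g x)) K := by
      unfold ent
      rw [Finset.sum_range]
      exact Finset.sum_congr rfl fun i _ => by rw [hlam]
    rw [e1]
    have hentm : Measurable fun x => ent (cnd μ g x) K := by
      unfold ent
      exact Finset.measurable_sum _ fun j _ => Real.continuous_negMulLog.measurable.comp
        (measurable_cnd (μ := μ) hg g1 (((measurable_idx K).comp measurable_fst)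
          (measurableSet_singleton j))).ennreal_toReal
    have hsm : Measurable fun x => ∑ i, Real.negMulLog (p x i) :=
      Finset.measurable_sum _ fun i _ => Real.continuous_negMulLog.measurable.comp (hpm i)
    have hb : ∀ a : ℝ, 0 ≤ a → a ≤ 1 → |Real.negMulLog a| ≤ 1 := by
      intro a h0 h1
      rw [abs_of_nonneg (Real.negMulLog_nonneg h0 h1)]
      have := Real.negMulLog_le_one_sub_self h0
      linarith
    have i1 : Integrable (fun x => ent (cnd μ g x) K) (nu' μ ν g) := by
      refine Integrable.of_bound hentm.aestronglyMeasurable (2 ^ K)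
        (Eventually.of_forall fun x => ?_)
      have := hp x
      unfold ent
      refine (norm_sum_le _ _).trans ?_
      calc _ ≤ ∑ _i ∈ Finset.range (2 ^ K), (1 : ℝ) :=
            Finset.sum_le_sum fun i _ => hb _ measureReal_nonneg measureReal_le_one
        _ = 2 ^ K := by simp
    have i2 : Integrable (fun x => ∑ i, Real.negMulLog (p x i)) (nu' μ ν g) := by
      refine Integrable.of_bound hsm.aestronglyMeasurable (2 ^ K)
        (Eventually.of_forall fun x => ?_)
      refine (norm_sum_le _ _).trans ?_
      calc _ ≤ ∑ _i : Fin (2 ^ K), (1 : ℝ) :=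
            Finset.sum_le_sum fun i _ => hb _ (hp0 x i) (hple x i)
        _ = 2 ^ K := by simp
    have h2 : ∫ x, (ent (cnd μ g x) K - Real.log 2) ∂(nu' μ ν g) ≤
        ∫ x, ∑ i, Real.negMulLog (p x i) ∂(nu' μ ν g) := by
      refine integral_mono (i1.sub (integrable_const _)) i2 fun x => ?_
      have := hp x
      have h3 := ent_translate (cnd μ g x) K x
      rw [Finset.sum_range] at h3
      exact h3
    rw [integral_sub i1 (integrable_const _)] at h2
    have h4 := ent_cnd (μ := μ) (ν := ν) hg hC g1 hm' K
    simp only [integral_const, probReal_univ, smul_eq_mul, one_mul] at h2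
    linarith)
  rw [← hE] at hinfo
  -- restrict to conditional masses at least `E / 4`
  set A : Set (Tor × Tor) := {z | E ≤ ∑ i, min (p z.1 i) (p z.2 i)} with hA
  have hmA : MeasurableSet A := by
    refine measurableSet_le measurable_const ?_
    exact Finset.measurable_sum _ fun i _ =>
      ((hpm i).comp measurable_fst).min ((hpm i).comp measurable_snd)
  set L : Set Tor := {x | M μ g x < ENNReal.ofReal (E / 4)} with hL
  have hmL : MeasurableSet L := measurableSet_lt (measurable_M hg) measurable_const
  have hLle : (nu' μ ν g).real L ≤ E / 4 := by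
    have h2 : nu' μ ν g L ≤ ENNReal.ofReal (E / 4) := by
      unfold nu'
      rw [withDensity_apply _ hmL]
      calc ∫⁻ x in L, M μ g x ∂ν ≤ ∫⁻ _x in L, ENNReal.ofReal (E / 4) ∂ν :=
            setLIntegral_mono measurable_const fun x hx => le_of_lt hx
        _ = ENNReal.ofReal (E / 4) * ν L := by simp
        _ ≤ ENNReal.ofReal (E / 4) * 1 := by
            gcongr
            exact prob_le_one
        _ = ENNReal.ofReal (E / 4) := mul_one _
    have h3 := ENNReal.toReal_mono ENNReal.ofReal_ne_top h2
    rwa [ENNReal.toReal_ofReal (by positivity)] at h3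
  set B : Set (Tor × Tor) := {q | h ≤ ov μ K q.1 q.2} with hBdef
  have hsub : A ⊆ (B ∪ (L ×ˢ Set.univ)) ∪ (Set.univ ×ˢ L) := by
    intro q hq
    by_cases h1 : q.1 ∈ L
    · exact Or.inl (Or.inr ⟨h1, trivial⟩)
    by_cases h2 : q.2 ∈ L
    · exact Or.inr ⟨trivial, h2⟩
    refine Or.inl (Or.inl ?_)
    have hq' : E ≤ ∑ i, min (p q.1 i) (p q.2 i) := hq
    show h ≤ ov μ K q.1 q.2
    have hcell : ∀ x, x ∉ L → ∀ i : Fin (2 ^ K), E / 4 * p x i ≤
        C * μ.real {y | idx K (y + x) = i} := by
      intro x hx i
      have h3 : ENNReal.ofReal (E / 4) ≤ M μ g x := not_lt.1 hx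
      have h4 := M_mul_cnd_le (μ := μ) hg g1 x (measurableSet_shift K i x)
      have h5 : ENNReal.ofReal (E / 4) * cnd μ g x {y | idx K (y + x) = i} ≤
          ENNReal.ofReal C * μ {y | idx K (y + x) = i} :=
        (mul_le_mul_left h3 _).trans h4
      have h6 := ENNReal.toReal_mono (by finiteness) h5
      rw [ENNReal.toReal_mul, ENNReal.toReal_mul, ENNReal.toReal_ofReal hC0.le,
        ENNReal.toReal_ofReal (by positivity)] at h6
      exact h6
    have h7 : E / 4 * E ≤ C * ov μ K q.1 q.2 := by
      calc E / 4 * E ≤ E / 4 * ∑ i, min (p q.1 i) (p q.2 i) :=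
            mul_le_mul_of_nonneg_left hq' (by positivity)
        _ = ∑ i, min (E / 4 * p q.1 i) (E / 4 * p q.2 i) := by
            rw [Finset.mul_sum]
            exact Finset.sum_congr rfl fun i _ => mul_min_of_nonneg _ _ (by positivity)
        _ ≤ ∑ i : Fin (2 ^ K), min (C * μ.real {y | idx K (y + q.1) = i})
              (C * μ.real {y | idx K (y + q.2) = i}) :=
            Finset.sum_le_sum fun i _ => min_le_min (hcell _ h1 i) (hcell _ h2 i)
        _ = C * ov μ K q.1 q.2 := by
            unfold ov
            rw [Finset.sum_range, Finset.mul_sum]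
            exact Finset.sum_congr rfl fun i _ => (mul_min_of_nonneg _ _ hC0.le).symm
    calc h ≤ E / 4 * E / C := by rw [hh]; exact min_le_left _ _
      _ ≤ ov μ K q.1 q.2 := by
          rw [div_le_iff₀ hC0]
          linarith
  have hmB : MeasurableSet B := by
    refine measurableSet_le measurable_const ?_
    unfold ov
    refine Finset.measurable_sum _ fun i _ => ?_
    exact ((measurable_real μ (measurableSet_idx K i)).comp measurable_fst).min
      ((measurable_real μ (measurableSet_idx K i)).comp measurable_snd)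
  have hbig : E / 2 ≤ ((nu' μ ν g).prod (nu' μ ν g)).real B := by
    have h2 := (measureReal_mono (μ := (nu' μ ν g).prod (nu' μ ν g)) hsub).trans
      ((measureReal_union_le _ _).trans (add_le_add_left (measureReal_union_le _ _) _))
    rw [measureReal_prod_prod, measureReal_prod_prod, probReal_univ, mul_one, one_mul] at h2
    linarith
  have hfin : ((nu' μ ν g).prod (nu' μ ν g)).real B ≤ C ^ 2 * (ν.prod ν).real B := by
    have h2 : (nu' μ ν g).prod (nu' μ ν g) ≤
        (ENNReal.ofReal C • ν).prod (ENNReal.ofReal C • ν) :=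
      Measure.prod_mono (nu'_le g1) (nu'_le g1)
    have h3 := h2 B
    rw [Measure.prod_smul_left, Measure.prod_smul_right, Measure.smul_apply, Measure.smul_apply,
      smul_eq_mul, smul_eq_mul] at h3
    have h4 := ENNReal.toReal_mono (by finiteness) h3
    rw [ENNReal.toReal_mul, ENNReal.toReal_mul, ENNReal.toReal_ofReal hC0.le] at h4
    rw [measureReal_def, measureReal_def, pow_two, mul_assoc]
    exact h4
  calc h ≤ E / 2 / C ^ 2 := by rw [hh]; exact min_le_right _ _
    _ ≤ (ν.prod ν).real B := by
        rw [div_le_iff₀ (by positivity)]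
        linarith

end Helper75.CG
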