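import Mathlib
import Pool.Agent.Helper35.AG.PartC
import Pool.Agent.Helper35.AG.Lift
import Pool.Agent.Helper88.AG.Tors

/-!
# Component growth: frame

`μ` extreme invariant, not Lebesgue; `ν` invariant without atoms; `lam ≤ C (μ * ν)` invariant.
Then `H_K(lam) - H_K(μ) → ∞`; in particular `μ * ν` is singular to `μ`.

Proof.  `lam = g (μ * ν)`, `g ≤ C`, `g ∘ 2 = g`, `g ∘ 3 = g` almost everywhere.  `(Y, X)` has law
`g (x + y) μ(dy) ν(dx)`, so `Z = X + Y` has law `lam`, and the law of `Y` is invariant and `≤ C μ`,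
so it is `μ`.  `I(X; Y) ≤ log C`, so `H_K(Z | X) ≥ H_K(Y | X) - log 2 ≥ H_K(μ) - log C - log 2`, and
`I_K(X; Z) ≤ H_K(lam) - H_K(μ) + log C + log 2`.  If this is bounded for infinitely many `K` then by
`info` many pairs `x, x'` have overlap `≥ h` of the cell laws of `Z` given `x`, `x'`; these laws are
`≤ C / m(x)` times the translates of `μ`, so `ov μ K x x' ≥ h'`, and `x - x'` is within `N 2^(-K)` of
`N`-torsion: `ν` has an atom.
-/

set_option autoImplicit false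
open MeasureTheory Filter Topology Helper35.AG Helper17.FU Helper17.FUGroup
open scoped ENNReal

open Helper91.TTT (GG)

namespace Helper75.CG

/-- **F1** (helper75): the finite scale inequality. -/
theorem loc (C D : ℝ) (hC : 1 ≤ C) : ∃ h : ℝ, 0 < h ∧ ∀ (μ ν : Measure Tor)
    [IsProbabilityMeasure μ] [IsProbabilityMeasure ν] (g : Tor → ℝ), Measurable g →
    (∀ x, 0 ≤ g x) → (∀ x, g x ≤ C) →
    ((μ.prod ν).withDensity fun p => ENNReal.ofReal (g (p.1 + p.2))).map Prod.fst = μ →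
    ∀ K : ℕ, ent ((conv μ ν).withDensity fun x => ENNReal.ofReal (g x)) K ≤ ent μ K + D →
    h ≤ (ν.prod ν).real {p | h ≤ ov μ K p.1 p.2} := by
  sorry

/-- **F2** (helper26): the invariant density and the marginal. -/
theorem marg {μ ν lam : Measure Tor} [IsProbabilityMeasure μ] [IsProbabilityMeasure ν]
    [IsProbabilityMeasure lam] (hμ : Inv μ) (hν : Inv ν) (hl : Inv lam)
    (hext : ∀ (μ' : Measure Tor) (c : ℝ≥0∞), IsProbabilityMeasure μ' → Inv μ' → c ≠ ⊤ →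
      μ' ≤ c • μ → μ' = μ)
    {c : ℝ≥0∞} (hc : c ≠ ⊤) (hle : lam ≤ c • conv μ ν) :
    ∃ (C : ℝ) (g : Tor → ℝ), 1 ≤ C ∧ Measurable g ∧ (∀ x, 0 ≤ g x) ∧ (∀ x, g x ≤ C) ∧
      lam = (conv μ ν).withDensity (fun x => ENNReal.ofReal (g x)) ∧
      ((μ.prod ν).withDensity fun p => ENNReal.ofReal (g (p.1 + p.2))).map Prod.fst = μ := by
  sorry

/-- **F3** (helper88): from the finite scale inequality to growth.  (`near_of_singular`; the sets
`{(x, x') : ‖N • (x - x')‖ ≤ N ^ 2 / 2 ^ K}` decrease to `{N • (x - x') = 0}`, a null set.) -/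
theorem comp_growth {μ ν lam : Measure Tor} [IsProbabilityMeasure μ] [IsProbabilityMeasure ν]
    [IsProbabilityMeasure lam] (hμ : Inv μ) (hs : Measure.MutuallySingular μ volume)
    (hν : Inv ν) (hl : Inv lam)
    (hext : ∀ (μ' : Measure Tor) (c : ℝ≥0∞), IsProbabilityMeasure μ' → Inv μ' → c ≠ ⊤ →
      μ' ≤ c • μ → μ' = μ)
    (hat : ∀ x, ν {x} = 0) {c : ℝ≥0∞} (hc : c ≠ ⊤) (hle : lam ≤ c • conv μ ν) :
    Tendsto (fun K => ent lam K - ent μ K) atTop atTop := by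
  sorry

variable {s2 s3 t : Equiv.Perm ℚ}

/-- **F4** (helper25): the measure of an extreme trace is extreme. -/
theorem ext_of_extreme (h2 : ∀ x : ℚ, s2 x = 2 * x) (h3 : ∀ x : ℚ, s3 x = 3 * x)
    (ht : ∀ x : ℚ, t x = x + 1) {τ : GG s2 s3 t} (hτ : (τ : Equiv.Perm ℚ) = t)
    {φ : GG s2 s3 t → ℂ} (hφ : φ ∈ Set.extremePoints ℝ (TR (GG s2 s3 t)))
    {μ : Measure Tor} [IsProbabilityMeasure μ]
    (hμ : ∀ n : ℤ, ∫ x, (fourier n x : ℂ) ∂μ = φ (τ ^ n))
    (μ' : Measure Tor) (c : ℝ≥0∞) (h1 : IsProbabilityMeasure μ') (hi : Inv μ') (hc : c ≠ ⊤)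
    (hle : μ' ≤ c • μ) : μ' = μ := by
  sorry

/-- **F5** (helper16): components of a product of traces. -/
theorem le_of_comp {G : Type*} [Group G] {τ : G} {φ ψ χ χ' : G → ℂ} (hχ' : χ' ∈ TR G)
    {a : ℝ} (h0 : 0 < a) (h1 : a ≤ 1) (h : φ * ψ = a • χ + (1 - a) • χ')
    {μ ν lam : Measure Tor} [IsProbabilityMeasure μ] [IsProbabilityMeasure ν]
    [IsProbabilityMeasure lam]
    (hμ : ∀ n : ℤ, ∫ x, (fourier n x : ℂ) ∂μ = φ (τ ^ n))
    (hν : ∀ n : ℤ, ∫ x, (fourier n x : ℂ) ∂ν = ψ (τ ^ n))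
    (hl : ∀ n : ℤ, ∫ x, (fourier n x : ℂ) ∂lam = χ (τ ^ n)) :
    lam ≤ (ENNReal.ofReal a)⁻¹ • conv μ ν := by
  sorry

end Helper75.CG
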